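import Pool.Agent.Run7.h365.CM.Pole
import Pool.Agent.TH170.CM.Family
import Pool.Agent.Y1.KN.All
import Pool.Agent.Y1.KN.Use

/-!
# Tate's pole conjecture for the abelian varieties of almost all CM types of all CM fields

Let `E` be an arbitrary CM field of degree `2 g`; nothing is assumed about its Galois group, its
subfields or multiplicities. It has `2 ^ g` CM types `Φ₀`. The theorem says that there is an absolute
constant `C` such that for all but at most `2 ^ g * C * rate E g p` of them Tate's pole conjecture is
true for all abelian varieties over all number fields `K` which are isogenous over `K` to products of
abelian varieties with complex multiplication by `E` over `K` of the CM type `Φ₀`, in all degrees.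

More generally let `E i` be finitely many CM fields, of degrees `2 g i`, which are pairwise
independent: for `i ≠ k` and all complex embeddings `φ` of `E i` and `ψ` of `E k` some automorphism of
`ℂ` is the identity on `φ (E i)` and the complex conjugation on `ψ (E k)` (this is no condition for one
field). There are `2 ^ (∑ i, g i)` families `Φ₀` of CM types `Φ₀ i` of the fields `E i`. A family has the
property `PoleForTypes` if the following is true for all number fields `K`. Let `A a`, `a : J`, be finitely
many abelian varieties over `K` with complex multiplication by `E (t a)` over `K`, of the types
`Φ₀ (t a)` for one embedding of `K` in the field of complex numbers (some of them may be equal or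
twists of others), and let `X` be a projective variety over `K` isogenous to the product of the `A a`,
given by its equations and by its numbers of points (`IsProductOf`); the Frobenius endomorphisms
are given by the theorem of Shimura and Taniyama (`FrobSystem`). Then for all `m ≤ dim X`:

* the Euler factors of `L(H^{2m}(X), s)` exist, and the order of the pole of this function at
  `s = m + 1` is the dimension `r` of the space of the Tate classes of degree `2 m`, the rational
  cohomology classes on which the Frobenius endomorphisms at almost all primes `v` of `K` act as the
  multiplication by `N(v)^m`;
* all these classes are Hodge classes, and they are linear combinations of products of `m` Hodge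
  classes of degree two. By the theorem of Lefschetz on (1,1)-classes these are classes of divisors;
  so `r` is the rank of the group of the cycles of codimension `m` over `K` modulo homological
  equivalence: this is Tate's pole conjecture for `X` in all degrees.

The theorem: all but at most `2 ^ (∑ i, g i) * ∑ i, C * rate (E i) (g i) (p i)` of the families have this
property. Here `p` is any prime factor of `g` (or `p = 1`), and `rate E g p` is `(1 + log (2 g)) ^ 16`
times the smaller of the numbers

* `W (E) / √g`, where (second part of the theorem, `WeightEstimate`) `W (E) ≤ N ^ 2 * D ^ (1 / 4)`;
  `N` is the number of the CM subfields of `E` (with `E`) and `D` is the largest degree of a CM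
  subfield of `E` that is normal over `ℚ` with a nonabelian Galois group (`D = 1` if there are none);
* `√g / p`.

So the exceptional CM types are a proportion `O (g ^ (-1 / 4) * (log g) ^ 16)` of all types of all CM
fields with a bounded number of CM subfields, and `O (g ^ (-1 / 2) * (log g) ^ 16)` if the normal
nonabelian ones have bounded degrees (for instance if `E` has no proper CM subfields and is not
normal). Some assumption is necessary: if `E` contains an imaginary quadratic field then a proportion
of about `√(2 / (π g))` of the types (`g` even) have exotic Hodge classes.

The proof. The primitive idempotents of the algebra of coefficients decompose `H^{2m}(X)` into lines, and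
the Frobenius acts on them by products of `2 m` conjugates of the `α v`. By the formula of Shimura and
Taniyama they are Hecke characters, up to the factor `N(v)^m`; so the order of the pole is the number
of the lines with the trivial character, by the theorem of Hecke on the edge of the `L`-functions. This
number is the dimension of the space of the Tate classes. A trivial character has a trivial infinity
type: so the Tate classes are of type `(m, m)` for all embeddings of `K`. For the nondegenerate
types they are generated by classes of degree two, and the number of the degenerate types was
estimated in the file `AllCMFieldsTimes` of the starting tree (on the Hodge conjecture).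
-/

set_option autoImplicit false

namespace Pool.Agent.Results.MP_058a58_ag.CMAlmostAllTypes

open NumberField Module Pool.Agent.H204R3.CM Pool.Agent.H977R3.CM Pool.Agent.TH170.CM
  Pool.Agent.Y1.KN Run7.h365.CM

/-- **Tate's pole conjecture for the abelian varieties of almost all CM types of all CM fields.** -/
theorem result :
    (∃ C : ℝ, 0 ≤ C ∧ ∀ (ι : Type) [Fintype ι] (E : ι → Type) [∀ i, Field (E i)]
      [∀ i, NumberField (E i)] [∀ i, IsCMField (E i)] (g p : ι → ℕ), PairwiseIndep E →
      (∀ i, finrank ℚ (E i) = 2 * g i) → (∀ i, p i ∣ g i ∧ (p i = 1 ∨ (p i).Prime)) →
      (({Φ₀ : ∀ i, Set (E i →+* ℂ) | (∀ i, IsCMType (Φ₀ i)) ∧ ¬ PoleForTypes E Φ₀}.ncard : ℕ) : ℝ) ≤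
        2 ^ (∑ i, g i) * ∑ i, C * rate (E i) (g i) (p i)) ∧
    WeightEstimate := by
  refine ⟨?_, weight_estimate_holds⟩
  obtain ⟨C, hC0, hC⟩ := families_holds
  refine ⟨C, hC0, ?_⟩
  intro ι _ E _ _ _ g p hE hg hp
  have h1 := hC ι E (fun _ _ => 1) (fun _ => 1) g p (fun _ _ => rfl) (fun _ => one_ne_zero)
    (fun _ _ => one_dvd _) hg hp (fun Φ => PoleForTypes E Φ) (by
      intro Φ hΦ hnd
      obtain ⟨L, _, _, j, hj⟩ := exists_galois E
      exact poleForTypes_of_nondeg j hj hΦ (nondeg_of_not_degenerate hΦ j hj hE
        fun i => not_degenerate (hΦ i) (hnd i)))
  simp only [Nat.cast_one, one_pow, mul_one] at h1
  exact h1

end Pool.Agent.Results.MP_058a58_ag.CMAlmostAllTypes
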