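import Pool.Agent.Run7.h365.CM.Blocks

/-!
# Tate's pole conjecture for abelian varieties of CM type in independent blocks

Let `K` be any number field with an embedding `σ₀` in the field of complex numbers and let `A i` be
finitely many abelian varieties over `K` with complex multiplication by CM fields `E i`, acting over
`K` (`CMOver`), for example powers of one such variety and of its twists. Let `X` be a projective
variety over `K` isogenous over `K` to the product of the `A i`, of dimension `d`. It is given by its
equations and by its numbers of points (`IsProductOf`); the Frobenius endomorphisms `α v ∈ E i` are
given by the theorem of Shimura and Taniyama (`FrobSystem`), and the CM types of `A i` for all
embeddings of `K` by `IsTypeOver`. Let `Y` be the list of the CM types of the `A i` for `σ₀`.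

The factors are divided into blocks (the block of the factor `A i` is `b i`), such that for each block
there is an automorphism of the field of complex numbers that acts as the complex conjugation on all
embeddings of the CM fields in this block and trivially on all embeddings of the CM fields in the
other blocks (for one block this is no condition). Each block is of one of the following kinds
(`GoodBlock`):

* its factors have dimension at most three, and any two of them whose CM fields have the same Galois
  closure over `ℚ` have isomorphic CM types, unless these CM fields are Galois over `ℚ`;
* its factors are factors (up to isogeny over the field of complex numbers) of one abelian variety of
  CM type of dimension at most five, each with any multiplicity;
* its factors have the same CM type, with a CM field of degree at most fourteen;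
* its factors are factors (up to isogeny) of one nondegenerate abelian variety of CM type, of
  arbitrary dimension, each with any multiplicity.

For example `X` may be any power of any abelian variety of CM type of dimension at most five, or of
any simple abelian variety of CM type of dimension at most seven, with the endomorphisms defined over
`K`, or a product of such powers for which the Galois closures of the CM fields are linearly disjoint.

The theorem (`PoleForFactors`): for all `m ≤ d` the Euler factors of `L(H^{2m}(X), s)` exist, and the
order of the pole of this function at `s = m + 1` is the dimension `r` of the space of the Tate classes
of degree `2 m`, the rational cohomology classes on which the Frobenius endomorphisms at almost all
primes `v` of `K` act as the multiplication by `N(v)^m`. All these classes are Hodge classes, and they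
lie in the ring generated by the classes of divisors and by the pull-backs, along homomorphisms, of
the Weil classes of imaginary quadratic fields on abelian fourfolds and sixfolds of CM type and of
split Weil type (`DWRing`). By the theorems of Markman the Weil classes on these fourfolds and
sixfolds are algebraic. So the Tate classes are the rational classes of the algebraic cycles of
codimension `m` over `K`, and `r` is the rank of the group of these cycles modulo homological
equivalence: this is Tate's pole conjecture for `X` in all degrees. There are exotic classes among
them, already on fourfolds.

The proof. The primitive idempotents of the algebra of coefficients decompose `H^{2m}(X)` into lines, and
the Frobenius acts on them by products of `2 m` conjugates of the `α v`. By the formula of Shimura and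
Taniyama they are Hecke characters, up to the factor `N(v)^m`; so the order of the pole is the number
of the lines with the trivial character, by the theorem of Hecke on the edge of the `L`-functions. This
number is the dimension of the space of the Tate classes. A trivial character has a trivial infinity
type: so the Tate classes are of type `(m, m)` for all embeddings of `K`.
-/

set_option autoImplicit false

namespace Pool.Agent.Results.MP_058a58_ag.CMIndependentBlocks

open Run7.h365.CM Pool.Agent.W547.KB Pool.Agent.W547.UB

/-- **Tate's pole conjecture for the products of abelian varieties of CM type in independent
blocks.** -/
theorem result (Y : CMAV) {S : Type} (b : Y.I → S) (hY : IndependentBlocks Y b) :
    PoleForFactors Y :=
  pole_blocks Y b hY

end Pool.Agent.Results.MP_058a58_ag.CMIndependentBlocks
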