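import Pool.Agent.Run7.h365.KF.Rk
import Pool.Agent.Run7.h365.KF.Seg
import Pool.Agent.Run7.h365.KF.Alg

/-!
# Tate's conjecture on the pole for Fermat varieties and their products over all number fields

Let `K` be a number field and `X = V_1 × ... × V_r` a product of Fermat varieties over `K`: `V_i` is the
hypersurface `x_0 ^ m + ... + x_n ^ m = 0`, `n = nn i ≥ 2`, `m = mm i ≥ 1`, of any dimension `n - 1 ≥ 1`
and any degree (`r = 1` is the case of one Fermat variety; a variety over `K` is also a smooth projective
variety over the field of rational numbers, with the same cycles and the same L-functions). We prove that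
`L(H^{2j}(X), s)` has at `s = j + 1` a pole of the order exactly `rankK K nn mm j`, the dimension of the
space of the invariants of the Galois group of `K` in `H^{2j}(X)(j)`: the number of the orbits of the
rational characters under the Galois groups of `K(ζ_M)` over `K`. Here `X` is given by its equations in
the embedding of Segre (`segreK`), or by any other equations with the same numbers of points over the
finite fields. The more roots of unity the field `K` contains the more classes are rational over `K`.

The eigenvalues of Frobenius on the lines of the orbit of a character `a` of level `M` are given by the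
values at the primes of `K(ζ_M)` of a Hecke character of `K(ζ_M)`, the composition of the norm to the
field of `M`-th roots of unity with a product of Jacobi sums.

The rational characters are Hodge characters, and their lines are algebraic (`AlgK`) if `K`, the level
`M` and the number `N = ∑ (n_i + 1)` of the entries satisfy `CovK K M N`. So Tate's conjecture on the
pole (`- order = rank B^j(X)`) is true for all `j`, over **every number field** `K`, in these cases:
* **the Fermat varieties of odd degree and dimension at most ten, and the products of Fermat varieties of
  odd degrees with at most twelve variables, for instance of four Fermat curves of odd degrees**;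
* the Fermat varieties of dimension at most four and of degree not divisible by four, and the products of
  two Fermat curves of such degrees (with least common multiple not divisible by four);
* in the dimension `n` for the degrees without odd prime factors `p ≤ 4 n + 9` congruent to one modulo
  four (`Covered`), or with large prime factors (`PairBound`), or with small ones (`GoodDegree2`).
If `K` has odd degree over an abelian number field (every number field of odd degree, every abelian number
field), then it is also true in all dimensions for the degrees `2 ^ a * p ^ b * q ^ c`, for products of
any number of Fermat varieties of such degrees with a common `p`, `q`, and for all odd degrees in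
dimension at most 26, and in the other cases of `FewEntries`.

The algebraicity of the lines in the family `AlgK` is due to Shioda and Katsura (inductive structure),
Aoki and Shioda (standard characters), Lefschetz (four entries); for the curve products and the modular
characters see `MP_e12fcd_ag.FermatDimensionTen` (helper919), where it is proved that all Hodge
characters are in this family if `Covered M N` is true. The definitions are in `Run7.h365.KF.Stm`, `Cov`,
`Bt`, `Seg` and `Run7.h365.PF.Stm`, `Bt`.
-/

set_option autoImplicit false

namespace Pool.Agent.Results.MP_058a58_ag.FermatOverNumberFields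

open Finset NumberField Run7.h365.PF Run7.h365.KF
open Pool.Agent.H916R2 (IsHodge)
open Run7.h365.CM (HasPole)

theorem result {K : Type} [Field K] [NumberField K] {r : ℕ} (nn mm : Fin r → ℕ)
    (hn : ∀ i, 2 ≤ nn i) (hm : ∀ i, 0 < mm i) :
    IsProdK nn mm (segreK K nn mm) ∧
    (∀ (N : ℕ) (eqs : Set (MvPolynomial (Fin N) (𝓞 K))), IsProdK nn mm eqs →
      ∀ j ≤ ∑ i, (nn i - 1), HasPole eqs (∑ i, (nn i - 1)) j (rankK K nn mm j)) ∧
    ∀ (j : ℕ) (c : Sy nn), dg c = 2 * j → (pr c).Nonempty → ∀ M : ℕ, 0 < M →
      ∀ a : Ent nn (pr c) → ZMod M, IsChar nn mm (pr c) a → RatK K (univ.val.map a) →
        IsHodge M (univ.val.map a) ∧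
        (CovK K M (∑ i ∈ pr c, (nn i + 1)) → AlgK M (univ.val.map a)) := by
  have h1 : ∀ i, 1 ≤ nn i := fun i => (by norm_num : 1 ≤ 2).trans (hn i)
  have hmL : ∀ i, mm i ∣ univ.lcm mm := fun i => dvd_lcm (mem_univ i)
  have hL : 0 < univ.lcm mm := by
    rw [Nat.pos_iff_ne_zero, Ne, Finset.lcm_eq_zero_iff]
    rintro ⟨i, -, hi⟩
    exact (hm i).ne' hi
  refine ⟨isProd_segreK K nn mm, fun N eqs hX j hj =>
    ⟨⟨_, exists_euler_prodK h1 hL hm hmL hX (2 * j)⟩, fun N B hB => ?_⟩,
    fun j c hc hA M hM a ha hra => ?_⟩
  · have h2 := order_prodK hn hL hm hmL hX hj hB
    rw [card_JIK hn hL j] at h2
    exact h2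
  · refine alg_charK hM hA hn ?_ ha hra
    have h3 := sum_pr h1 (pr c)
    have h4 := dg_eq c
    rw [h3, Nat.even_iff]
    omega

end Pool.Agent.Results.MP_058a58_ag.FermatOverNumberFields
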