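import Pool.Agent.Run7.h365.FV.Rank
import Pool.Agent.Run7.h365.FV.All4
import Pool.Agent.Run7.h919.Main
import Pool.Agent.Run7.h365.TD.Fin

/-!
# Tate's conjecture on the pole for Fermat varieties over the rational numbers

Let `X` be the Fermat variety `x_0 ^ m + ... + x_(2 r + 1) ^ m = 0` of dimension `2 r` over the field of
rational numbers. The number of its points over the finite fields is given by Jacobi sums, and these
are the values of Hecke characters of the fields of `M`-th roots of unity, `M ∣ m` (Weil). We prove
this in full and conclude that `L(H^{2j}(X), s)` has at `s = j + 1` a pole of the order
`rank r m j`: one, and for `j = r` one more for every orbit of rational characters.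

The rational characters are Hodge characters, and their lines are algebraic in the following cases:
in all dimensions if the degree has at most two odd prime factors, or is not divisible by four and has
at most three odd prime factors; for **all odd degrees in all dimensions `2 r ≤ 26`**, and for all
degrees which are not divisible by four in all dimensions `2 r ≤ 12`, and more generally if the degree
is not divisible by four and the product of the numbers `p - 1` for any four odd prime factors `p` of
the degree is larger than `16 (2 r + 2)` (`32 (2 r + 2)` for even degrees) (`FewEntries`); for all
surfaces (Lefschetz) and for all fourfolds, of every degree; and in all dimensions for the degrees all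
of whose divisors `M` satisfy `FewEntries M (2 r + 2)`, `GoodDegree2 M` (only small prime factors) or
`PairBound M (2 r + 2)` (the prime factors are large compared with the square root of the dimension).
In these cases the order of the pole is the rank of the group of the algebraic cycles over the
rational numbers of codimension `j` up to homological equivalence.

The degrees with few prime factors: the products of the Gauss sums of a rational character are reduced
modulo the primes `q` which divide the degree. They are the values of an idele class character whose
local component at `q` is a power of the residue symbol, and it is ramified if the character is not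
generated. No condition on the residues is needed. Two or three prime factors at a time are
treated in this way; the classes which belong to four or more prime factors vanish since they are carried
by too many entries. (The last step and the degrees divisible by four with two odd prime factors are by
helper919, `Run7.h919.Ra.generated_few`.)

The fourfolds: we show that, up to multiplication by units, a Hodge character with six entries of even
exact level is generated by the known ones or is one of `(1, 24, 62, 71, 81, 91)`,
`(1, 31, 55, 71, 81, 91)` modulo 110 and `(1, 62, 111, 142, 162, 182)` modulo 220, and that these three
are not rational: their products of Gauss sums at the primes 331 and 661 are not powers of the prime.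
-/

set_option autoImplicit false

namespace Pool.Agent.Results.MP_058a58_ag.FermatVarieties

open Finset Run7.h365.FV
open Pool.Agent.H916R2 (IsHodge)
open Pool.Agent.Y2.Cv (GoodDegree2)
open Run7.h365.CM (HasPole)
open Run7.h919 (PairBound)
open Run7.h365.TD (FewEntries)

/-- The dimension is two or four, or every divisor of the degree satisfies `FewEntries` (at most two odd
prime factors, or it is not divisible by four and has at most three odd prime factors or the dimension
is small: at most 26 for odd, at most 12 for even divisors, or bounded by the product of any four odd
prime factors), or it has only small prime factors, or its prime factors are large compared with the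
square root of the dimension. -/
def Covered (r m : ℕ) : Prop :=
  r = 1 ∨ r = 2 ∨ ∀ M, M ∣ m → FewEntries M (2 * r + 2) ∨ GoodDegree2 M ∨ PairBound M (2 * r + 2)

theorem result (m r : ℕ) (hm : 0 < m) (hr : 0 < r) :
    (∀ j ≤ 2 * r, HasPole (K := ℚ) (fermatEq r m) (2 * r) j (rank r m j)) ∧
    ∀ M, M ∣ m → ∀ a : Fin (2 * r + 1 + 1) → ZMod M, IsCharacter a → IsRational a →
      IsHodge M (univ.val.map a) ∧ (Covered r m → IsGenerated M (univ.val.map a)) := by
  refine ⟨fun j hj => hasPole hm hr hj, fun M hM a ha hra => ?_⟩
  have hM0 : 0 < M := Nat.pos_of_dvd_of_pos hM hm
  have hH := isHodge hM0 ha hra
  refine ⟨hH, ?_⟩
  rintro (h1 | h2 | h3)
  · apply isGenerated_of hM0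
    refine Pool.Agent.H916R2.Generated.ofBase _ (Or.inl ⟨hH, ?_⟩)
    rw [Run7.h365.FV.card_map, h1]
  · subst h2
    exact isGenerated_six hM0 ha hra
  · rcases h3 M hM with h | h | h
    · exact Run7.h365.TD.isGenerated_few hM0 hr h ha hra
    · exact isGenerated_good hM0 h hH (ne_zero_map a)
    · refine isGenerated_of hM0 (Pool.Agent.Y2.generated_mono (fun _ h => h.elim)
        (Run7.h919.main_pairs hM0 hH (ne_zero_map a) ?_))
      rw [Run7.h365.FV.card_map]
      exact h

end Pool.Agent.Results.MP_058a58_ag.FermatVarieties
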